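import Pool.Agent.Lib.MP_1be8fd_lc.Final

set_option autoImplicit false

namespace Pool.Agent.Results.MP_1be8fd_lc.NotFinitelyBased

open Pool.Agent.Lib.MP_1be8fd_lc

/-- Let `N` be a finite set of names with at least two elements and `F` any set of relabelling
functions (all of them, for the full language). Over recursion-free CCS with prefixing, choice,
parallel composition with synchronisation, all restrictions, the relabellings in `F`, left merge
and communication merge, there is no finite set `E` of sound equations from which every sound
equation is derivable in equational logic. -/
theorem result (N : Type) [Finite N] [Nontrivial N] (F : Set (Relabelling N)) :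
    ¬ ∃ E : Set (Term N F ℕ × Term N F ℕ),
      E.Finite ∧ (∀ e ∈ E, Sound e.1 e.2) ∧
        ∀ s t : Term N F ℕ, Sound s t → Derives E s t :=
  no_finite_basis F

end Pool.Agent.Results.MP_1be8fd_lc.NotFinitelyBased
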